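import Pool.Agent.Helper60.HC.GoalsP
import Pool.Agent.Helper16.UN.HVB

/-!
# Project HC (MP_a41896_nt), packet ELIM (helper66): the elimination ideal in one chart
-/

set_option autoImplicit false

open MvPolynomial

namespace Pool.Agent.Helper66.HC.ELIM

open Pool.Agent.Helper60.HC Pool.Agent.Helper5.UN

/-- a form of the chart as a value at pairs -/
lemma aeval_chs {K Ω σ : Type} [Field K] [Field Ω] [Algebra K Ω] [Fintype σ] (a : σ → Bool)
    (D : ℕ) (f : MvPolynomial σ K) (hf : ∀ i, degreeOf i f ≤ D) (ζ : σ → Ω) (κ : σ → Ω)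
    (y : σ → Fin 2 → Ω) (hy : ∀ i, κ i • y i = if a i = true then ![ζ i, 1] else ![1, ζ i]) :
    aeval ζ (chs a D f) = (∏ i, κ i ^ D) * hv (algebraMap K Ω) (fun _ => D) f y := by
  obtain ⟨-, -, h3, -, h5, -⟩ := Pool.Agent.Helper16.UN.gHVB
  rw [← h3 K Ω (algebraMap K Ω) σ (fun _ => D) f κ y hf]
  have h6 := h5 K (MvPolynomial σ K) Ω C (aeval ζ : MvPolynomial σ K →ₐ[K] Ω).toRingHom σ
    (fun _ => D) f (fun i => if a i = true then ![X i, 1] else ![1, X i])
  have h7 : ((aeval ζ : MvPolynomial σ K →ₐ[K] Ω).toRingHom).comp C = algebraMap K Ω := by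
    ext x
    simp
  rw [h7] at h6
  unfold chs
  have h8 : aeval ζ (hv (C : K →+* MvPolynomial σ K) (fun _ => D) f fun i =>
      if a i = true then ![X i, 1] else ![1, X i]) = (aeval ζ : MvPolynomial σ K →ₐ[K] Ω).toRingHom
      (hv (C : K →+* MvPolynomial σ K) (fun _ => D) f fun i =>
      if a i = true then ![X i, 1] else ![1, X i]) := rfl
  rw [h8, h6]
  congr 1
  funext i j
  rw [hy i]
  by_cases ha : a i = true
  · simp only [ha, if_true]
    fin_cases j <;> simp
  · simp only [ha, if_false, Bool.false_eq_true]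
    fin_cases j <;> simp

/-- independent elements that are algebraic over a finite set -/
lemma card_le_of_algebraic {K Ω : Type} [Field K] [Field Ω] [Algebra K Ω] {τ : Type} [Fintype τ]
    (ζ : τ → Ω) (hζ : AlgebraicIndependent K ζ) (T : Finset Ω)
    (h : ∀ i, IsAlgebraic (IntermediateField.adjoin K (T : Set Ω)) (ζ i)) :
    Fintype.card τ ≤ T.card := by
  classical
  have hind : (AlgebraicIndependent.matroid K Ω).Indep (Set.range ζ) :=
    AlgebraicIndependent.matroid_indep_iff.mpr hζ.to_subtype_range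
  have hsub : Set.range ζ ⊆ (AlgebraicIndependent.matroid K Ω).closure (T : Set Ω) := by
    rintro _ ⟨i, rfl⟩
    rw [AlgebraicIndependent.matroid_closure_eq, SetLike.mem_coe, Subalgebra.mem_algebraicClosure]
    open scoped IntermediateField.algebraAdjoinAdjoin in
    exact (IsFractionRing.isAlgebraic_iff (Algebra.adjoin K (T : Set Ω))
      (IntermediateField.adjoin K (T : Set Ω)) Ω).mpr (h i)
  have h1 := hind.encard_le_eRk_of_subset hsub
  rw [Matroid.eRk_closure_eq] at h1
  have h3 : (Set.range ζ).encard = (Fintype.card τ : ℕ∞) := by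
    rw [← Set.image_univ, hζ.injective.encard_image, Set.encard_univ, ENat.card_eq_coe_natCard,
      Nat.card_eq_fintype_card]
  rw [h3] at h1
  have h4 := h1.trans (Matroid.eRk_le_encard _ _)
  rw [Set.encard_coe_eq_coe_finsetCard, Nat.cast_le] at h4
  exact h4

lemma degreeOf_rename_val {K σ : Type} [Field K] [DecidableEq σ] (J : Finset σ)
    (g : MvPolynomial {i // i ∈ J} K) {i : σ} (hi : i ∉ J) :
    (rename (Subtype.val : {i // i ∈ J} → σ) g).degreeOf i = 0 := by
  have h1 : i ∉ (rename (Subtype.val : {i // i ∈ J} → σ) g).vars := by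
    intro h
    have h2 := vars_rename (Subtype.val : {i // i ∈ J} → σ) g h
    rw [Finset.mem_image] at h2
    obtain ⟨j, -, rfl⟩ := h2
    exact hi j.2
  rw [degreeOf_def, Multiset.count_eq_zero]
  rwa [vars_def, Multiset.mem_toFinset] at h1

/-- one chart and one set of variables -/
lemma key {K σ : Type} [Field K] [Fintype σ] [DecidableEq σ] {s D : ℕ} {ι : Type} [Fintype ι]
    (f : ι → MvPolynomial σ K) (hf : ∀ j i, degreeOf i (f j) ≤ D) (hc : CodimGT D f s)
    (J : Finset σ) (hJ : Fintype.card σ ≤ J.card + s) (a : σ → Bool) :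
    ∃ (Z : MvPolynomial σ K) (h : ι → MvPolynomial σ K), Z ≠ 0 ∧
      (∀ i, i ∉ J → Z.degreeOf i = 0) ∧ Z = ∑ j, h j * chs a D (f j) := by
  classical
  have hinj : Function.Injective (rename (Subtype.val : {i // i ∈ J} → σ) :
      MvPolynomial {i // i ∈ J} K → MvPolynomial σ K) :=
    rename_injective _ Subtype.val_injective
  let M : Submonoid (MvPolynomial σ K) :=
    (nonZeroDivisors (MvPolynomial {i // i ∈ J} K)).map
      (rename (Subtype.val : {i // i ∈ J} → σ) : MvPolynomial {i // i ∈ J} K →ₐ[K]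
        MvPolynomial σ K)
  by_cases hdis : Disjoint ((Ideal.span (Set.range fun j => chs a D (f j)) :
      Ideal (MvPolynomial σ K)) : Set (MvPolynomial σ K)) (M : Set (MvPolynomial σ K))
  · exfalso
    obtain ⟨P, hP, hbP, hPM⟩ := Ideal.exists_le_prime_disjoint _ M hdis
    have hdom : IsDomain (MvPolynomial σ K ⧸ P) := Ideal.Quotient.isDomain P
    let Ω := FractionRing (MvPolynomial σ K ⧸ P)
    let ζ : σ → Ω := fun i => algebraMap (MvPolynomial σ K ⧸ P) Ω (Ideal.Quotient.mk P (X i))
    have hζ : ∀ g : MvPolynomial σ K, aeval ζ g =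
        algebraMap (MvPolynomial σ K ⧸ P) Ω (Ideal.Quotient.mk P g) := by
      intro g
      have h1 : (aeval ζ : MvPolynomial σ K →ₐ[K] Ω) =
          (IsScalarTower.toAlgHom K (MvPolynomial σ K ⧸ P) Ω).comp (Ideal.Quotient.mkₐ K P) := by
        apply MvPolynomial.algHom_ext
        intro i
        simp [ζ]
      rw [h1]
      simp
    have hζ0 : ∀ g : MvPolynomial σ K, aeval ζ g = 0 ↔ g ∈ P := by
      intro g
      rw [hζ, ← Ideal.Quotient.eq_zero_iff_mem]
      constructor
      · intro h
        exact (IsFractionRing.injective (MvPolynomial σ K ⧸ P) Ω) (by rw [h, map_zero])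
      · intro h
        rw [h, map_zero]
    -- independence
    have hind : AlgebraicIndependent K (fun i : {i // i ∈ J} => ζ i.1) := by
      rw [algebraicIndependent_iff]
      intro p hp
      by_contra hne
      have h1 : aeval ζ (rename (Subtype.val : {i // i ∈ J} → σ) p) = 0 := by
        rw [aeval_rename]
        exact hp
      rw [hζ0] at h1
      have h2 : rename (Subtype.val : {i // i ∈ J} → σ) p ∈ M :=
        ⟨p, mem_nonZeroDivisors_of_ne_zero hne, rfl⟩
      exact Set.disjoint_left.1 hPM h1 h2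
    -- the pairs
    let y : σ → Fin 2 → Ω := fun i =>
      if a i = true then ![ζ i, 1] else if ζ i = 0 then ![1, 0] else ![(ζ i)⁻¹, 1]
    let κ : σ → Ω := fun i => if a i = true then 1 else if ζ i = 0 then 1 else ζ i
    have hκ : ∀ i, κ i ≠ 0 := by
      intro i
      simp only [κ]
      split_ifs with h1 h2
      · exact one_ne_zero
      · exact one_ne_zero
      · exact h2
    have hy1 : ∀ i, y i 1 = 1 ∨ y i = ![1, 0] := by
      intro i
      simp only [y]
      split_ifs with h1 h2
      · left; simp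
      · right; rfl
      · left; simp
    have hy2 : ∀ i, κ i • y i = if a i = true then ![ζ i, 1] else ![1, ζ i] := by
      intro i
      simp only [κ, y]
      split_ifs with h1 h2
      · rw [one_smul]
      · rw [one_smul, h2]
      · ext j
        fin_cases j
        · simpa using mul_inv_cancel₀ h2
        · simp
    have hy3 : ∀ j, hv (algebraMap K Ω) (fun _ => D) (f j) y = 0 := by
      intro j
      have h1 := aeval_chs a D (f j) (hf j) ζ κ y hy2
      have h2 : aeval ζ (chs a D (f j)) = 0 := by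
        rw [hζ0]
        exact hbP (Ideal.subset_span ⟨j, rfl⟩)
      rw [h2] at h1
      have h3 : (∏ i, κ i ^ D) ≠ 0 := Finset.prod_ne_zero_iff.2 fun i _ => pow_ne_zero _ (hκ i)
      rcases mul_eq_zero.1 h1.symm with h | h
      · exact absurd h h3
      · exact h
    obtain ⟨T, hT, halg⟩ := hc Ω y hy1 hy3
    have halg2 : ∀ i, IsAlgebraic (IntermediateField.adjoin K (T : Set Ω)) (ζ i) := by
      intro i
      have h1 := halg i
      simp only [y] at h1
      split_ifs at h1 with h2 h3
      · simpa using h1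
      · rw [h3]
        exact isAlgebraic_zero
      · have h4 : IsAlgebraic (IntermediateField.adjoin K (T : Set Ω)) (ζ i)⁻¹ := by simpa using h1
        exact IsAlgebraic.inv_iff.1 h4
    have hle := card_le_of_algebraic (fun i : {i // i ∈ J} => ζ i.1) hind T fun i => halg2 i.1
    rw [Fintype.card_coe] at hle
    omega
  · rw [Set.not_disjoint_iff] at hdis
    obtain ⟨Z, hZ, g, hg, rfl⟩ := hdis
    rw [SetLike.mem_coe, Ideal.mem_span_range_iff_exists_fun] at hZ
    obtain ⟨h, hh⟩ := hZ
    refine ⟨_, h, ?_, fun i hi => degreeOf_rename_val J g hi, hh.symm⟩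
    have hg0 : g ≠ 0 := nonZeroDivisors.ne_zero hg
    intro h0
    exact hg0 (hinj (h0.trans (map_zero _).symm))

theorem t : S_ELIM := by
  intro K _ σ _ _ s D ι _ f hf hc
  classical
  have h1 : ∀ (J : Finset σ) (a : σ → Bool), ∃ (Z : MvPolynomial σ K) (h : ι → MvPolynomial σ K),
      Fintype.card σ ≤ J.card + s → (Z ≠ 0 ∧ (∀ i, i ∉ J → Z.degreeOf i = 0) ∧
        Z = ∑ j, h j * chs a D (f j)) := by
    intro J a
    by_cases hJ : Fintype.card σ ≤ J.card + s
    · obtain ⟨Z, h, h2⟩ := key f hf hc J hJ a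
      exact ⟨Z, h, fun _ => h2⟩
    · exact ⟨0, 0, fun h => absurd h hJ⟩
  choose Z h hZ using h1
  refine ⟨1 + ∑ J : Finset σ, ∑ a : σ → Bool, ∑ i, (Z J a).degreeOf i, by omega, ?_⟩
  intro J hJ a
  obtain ⟨h2, h3, h4⟩ := hZ J a hJ
  refine ⟨Z J a, h J a, h2, fun i => ?_, h3, h4⟩
  have h5 : (Z J a).degreeOf i ≤ ∑ i, (Z J a).degreeOf i :=
    Finset.single_le_sum (f := fun i => (Z J a).degreeOf i) (fun _ _ => Nat.zero_le _)
      (Finset.mem_univ i)
  have h6 : ∑ i, (Z J a).degreeOf i ≤ ∑ a : σ → Bool, ∑ i, (Z J a).degreeOf i :=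
    Finset.single_le_sum (f := fun a => ∑ i, (Z J a).degreeOf i) (fun _ _ => Nat.zero_le _)
      (Finset.mem_univ a)
  have h7 : ∑ a : σ → Bool, ∑ i, (Z J a).degreeOf i ≤
      ∑ J : Finset σ, ∑ a : σ → Bool, ∑ i, (Z J a).degreeOf i :=
    Finset.single_le_sum (f := fun J => ∑ a : σ → Bool, ∑ i, (Z J a).degreeOf i)
      (fun _ _ => Nat.zero_le _) (Finset.mem_univ J)
  omega

end Pool.Agent.Helper66.HC.ELIM
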